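import Pool.Agent.Helper99.GL.FSpec
import Pool.Agent.Helper69.EI.GlobalOde

/-! Swarm GL, part F25: the saddle argument. -/

set_option autoImplicit false

open Metric Set Filter Topology

namespace Pool.GL.H69

/-- a bounded function growing exponentially is nonpositive at `0` -/
theorem nonpos_of_growth (f f' : ℝ → ℝ) (M : ℝ) (hf : ∀ t, 0 ≤ t → HasDerivAt f (f' t) t)
    (hg : ∀ t, 0 ≤ t → f t ≤ f' t) (hM : ∀ t, 0 ≤ t → f t ≤ M) : f 0 ≤ 0 := by
  have hmono : MonotoneOn (fun t => Real.exp (-t) * f t) (Ici 0) := by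
    refine monotoneOn_of_deriv_nonneg (convex_Ici 0) ?_ ?_ ?_
    · intro t ht
      exact ((((Real.hasDerivAt_exp (-t)).comp t (hasDerivAt_neg t)).mul
        (hf t ht)).continuousAt).continuousWithinAt
    · intro t ht
      rw [interior_Ici] at ht
      exact ((((Real.hasDerivAt_exp (-t)).comp t (hasDerivAt_neg t)).mul
        (hf t (le_of_lt ht))).differentiableAt).differentiableWithinAt
    · intro t ht
      rw [interior_Ici] at ht
      have h1 := (((Real.hasDerivAt_exp (-t)).comp t (hasDerivAt_neg t)).mul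
        (hf t (le_of_lt ht)))
      have h2 : deriv (fun t => Real.exp (-t) * f t) t =
          Real.exp (-t) * -1 * f t + (Real.exp ∘ Neg.neg) t * f' t := h1.deriv
      rw [h2]
      have h3 := hg t (le_of_lt ht)
      have h4 := Real.exp_pos (-t)
      simp only [Function.comp]
      nlinarith
  by_contra hneg
  push Not at hneg
  have h0 : ∀ T : ℝ, 0 ≤ T → f 0 ≤ Real.exp (-T) * M := by
    intro T hT
    have h1 := hmono (mem_Ici.2 le_rfl) (mem_Ici.2 hT) hT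
    simp only [neg_zero, Real.exp_zero, one_mul] at h1
    exact h1.trans (mul_le_mul_of_nonneg_left (hM T hT) (Real.exp_pos _).le)
  have hMpos : 0 < M := lt_of_lt_of_le hneg (hM 0 le_rfl)
  have h1 : Tendsto (fun T : ℝ => Real.exp (-T) * M) atTop (𝓝 (0 * M)) :=
    (Real.tendsto_exp_neg_atTop_nhds_zero).mul_const M
  rw [zero_mul] at h1
  have h2 : f 0 ≤ 0 := ge_of_tendsto h1 ((eventually_ge_atTop 0).mono h0)
  linarith

/-- derivative of the square of the modulus -/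
theorem hasDerivAt_sq (u : ℝ → ℂ) (u' : ℂ) (t : ℝ) (h : HasDerivAt u u' t) :
    HasDerivAt (fun t => ‖u t‖ ^ 2) (2 * ((starRingEnd ℂ) (u t) * u').re) t := by
  have h1 := h.norm_sq
  have h2 : (2 * inner ℝ (u t) u' : ℝ) = 2 * ((starRingEnd ℂ) (u t) * u').re := by
    rw [Complex.inner, mul_comm u']
  rw [h2] at h1
  exact h1

theorem exists_omega (a b : ℂ) (hb : b ≠ 0) (hab : (a / b).im ≠ 0) :
    ∃ ω : ℂ, (ω * b).re = 1 ∧ (ω * a).re = -1 := by
  set q := a / b with hq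
  have ha : a = q * b := by rw [hq]; field_simp
  refine ⟨(1 + Complex.I * (((q.re + 1) / q.im : ℝ) : ℂ)) / b, ?_, ?_⟩
  · rw [div_mul_cancel₀ _ hb]
    simp
  · rw [ha]
    have : (1 + Complex.I * (((q.re + 1) / q.im : ℝ) : ℂ)) / b * (q * b) =
        (1 + Complex.I * (((q.re + 1) / q.im : ℝ) : ℂ)) * q := by field_simp
    rw [this]
    simp only [Complex.mul_re, Complex.add_re, Complex.one_re, Complex.I_re, Complex.ofReal_re,
      Complex.I_im, Complex.ofReal_im, Complex.add_im, Complex.one_im, Complex.mul_im]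
    field_simp
    ring

/-- growth of `‖u‖²` for `u' = ω (b u + R)` -/
theorem growth_est (ω b u R : ℂ) (hb : (ω * b).re = 1) :
    2 * ‖u‖ ^ 2 - 2 * ‖u‖ * (‖ω‖ * ‖R‖) ≤ 2 * ((starRingEnd ℂ) u * (ω * (b * u + R))).re := by
  have h1 : (starRingEnd ℂ) u * (ω * (b * u + R)) =
      (ω * b) * ((starRingEnd ℂ) u * u) + (starRingEnd ℂ) u * (ω * R) := by ring
  have h2 : (starRingEnd ℂ) u * u = ((‖u‖ ^ 2 : ℝ) : ℂ) := by
    rw [mul_comm, Complex.mul_conj, Complex.normSq_eq_norm_sq]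
  rw [h1, Complex.add_re, h2, Complex.re_mul_ofReal, hb]
  have h3 : -(‖u‖ * (‖ω‖ * ‖R‖)) ≤ ((starRingEnd ℂ) u * (ω * R)).re := by
    have h4 := Complex.abs_re_le_norm ((starRingEnd ℂ) u * (ω * R))
    rw [norm_mul, norm_mul, RCLike.norm_conj] at h4
    exact (abs_le.1 h4).1
  linarith

theorem est1 (U X w g : ℝ) (hU : 0 ≤ U) (h6 : w ≤ 1 / 8 * U + 1 / 8 * X)
    (h1 : 2 * U ^ 2 - 2 * U * w ≤ g) : U ^ 2 - X ^ 2 ≤ g - 2 * (-X ^ 2) := by
  have h9 : U * w ≤ U * (1 / 8 * U + 1 / 8 * X) := mul_le_mul_of_nonneg_left h6 hU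
  nlinarith [sq_nonneg (U - X)]

theorem est2 (U w g : ℝ) (hU : 0 ≤ U) (h6 : w ≤ 1 / 8 * U)
    (h1 : 2 * U ^ 2 - 2 * U * w ≤ g) : U ^ 2 ≤ g := by
  have h9 : U * w ≤ U * (1 / 8 * U) := mul_le_mul_of_nonneg_left h6 hU
  nlinarith [sq_nonneg U]

theorem abs_sad (G : ℂ × ℂ → ℂ) (s₁ a b c : ℂ)
    (hG : HasStrictFDerivAt G (b • ContinuousLinearMap.fst ℂ ℂ ℂ +
      c • ContinuousLinearMap.snd ℂ ℂ ℂ) (s₁, 0))
    (hG0 : G (s₁, 0) = 0) (hb : b ≠ 0) (hab : (a / b).im ≠ 0) (S : ℂ → ℂ → Prop) (R : ℝ)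
    (hR : 0 < R)
    (hflow : ∀ (ω : ℂ) (σ ξ : ℝ → ℂ) (T : ℝ), 0 ≤ T →
      (∀ t ∈ Icc 0 T, ‖σ t - s₁‖ ≤ R ∧ ‖ξ t‖ ≤ R ∧ ξ t ≠ 0 ∧ HasDerivAt ξ (ω * a * ξ t) t ∧
        HasDerivAt σ (ω * G (σ t, ξ t)) t) → S (σ 0) (ξ 0) → S (σ T) (ξ T))
    (haway : ∀ ρ, 0 < ρ → ρ ≤ R → ∃ δ > 0, ∀ s z : ℂ, ‖s - s₁‖ = ρ → 0 < ‖z‖ → ‖z‖ < δ →
      ¬ S s z) :
    ∃ r > 0, ∃ C : ℝ, (∀ s z : ℂ, ‖s - s₁‖ < r → 0 < ‖z‖ → ‖z‖ < r → S s z →
      ‖s - s₁‖ ≤ C * ‖z‖) ∧
      (∀ s s' z : ℂ, ‖s - s₁‖ < r → ‖s' - s₁‖ < r → 0 < ‖z‖ → ‖z‖ < r → S s z → S s' z →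
        s = s') := by
  obtain ⟨ω, hωb, hωa⟩ := exists_omega a b hb hab
  set κ : ℂ := c / (a - b) with hκ
  have hab' : a - b ≠ 0 := by
    intro h
    rw [sub_eq_zero] at h
    rw [h, div_self hb] at hab
    simp at hab
  have hκ' : κ * (a - b) = c := by rw [hκ]; field_simp
  set ε : ℝ := 1 / (8 * (‖ω‖ + 1) * (1 + ‖κ‖)) with hε
  have hε0 : 0 < ε := by positivity
  have hωn := norm_nonneg ω
  have hκn := norm_nonneg κ
  have hε1 : ‖ω‖ * ε * (1 + ‖κ‖) ≤ 1 / 8 := by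
    have h1 : (‖ω‖ + 1) * ε * (1 + ‖κ‖) = 1 / 8 := by
      rw [hε]; field_simp
    have h2 : ‖ω‖ * ε * (1 + ‖κ‖) ≤ (‖ω‖ + 1) * ε * (1 + ‖κ‖) := by
      have : 0 ≤ ε * (1 + ‖κ‖) := by positivity
      nlinarith
    linarith
  have hε2 : ‖ω‖ * ε ≤ 1 / 8 := by
    have : ‖ω‖ * ε ≤ ‖ω‖ * ε * (1 + ‖κ‖) := by
      have : 0 ≤ ‖ω‖ * ε * ‖κ‖ := by positivity
      nlinarith
    linarith
  -- the polydisc
  have hlo := hG.isLittleO.def hε0
  rw [nhds_prod_eq, (nhds_basis_ball.prod_self).eventually_iff] at hlo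
  obtain ⟨ρ₁, hρ₁, hlo⟩ := hlo
  obtain ⟨ρ, hρdef⟩ : ∃ ρ : ℝ, ρ = min (ρ₁ / 2) R := ⟨_, rfl⟩
  have hρ0 : 0 < ρ := by rw [hρdef]; exact lt_min (by linarith) hR
  have hρR : ρ ≤ R := by rw [hρdef]; exact min_le_right _ _
  have hρρ₁ : ρ < ρ₁ := by
    have : ρ ≤ ρ₁ / 2 := by rw [hρdef]; exact min_le_left _ _
    linarith
  have hGe : ∀ x ∈ closedBall ((s₁, 0) : ℂ × ℂ) ρ, ∀ y ∈ closedBall ((s₁, 0) : ℂ × ℂ) ρ,
      ‖G x - G y - (b * (x.1 - y.1) + c * (x.2 - y.2))‖ ≤ ε * ‖x - y‖ := by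
    intro x hx y hy
    have h1 := @hlo (x, y) ⟨closedBall_subset_ball hρρ₁ hx, closedBall_subset_ball hρρ₁ hy⟩
    simpa using h1
  have hmem : ∀ s z : ℂ, ‖s - s₁‖ ≤ ρ → ‖z‖ ≤ ρ → (s, z) ∈ closedBall ((s₁, 0) : ℂ × ℂ) ρ := by
    intro s z h1 h2
    rw [mem_closedBall, dist_eq_norm, Prod.mk_sub_mk, Prod.norm_mk, sub_zero]
    exact max_le h1 h2
  have hmem0 : ((s₁, 0) : ℂ × ℂ) ∈ closedBall ((s₁, 0) : ℂ × ℂ) ρ := mem_closedBall_self hρ0.le
  have hL : LipschitzOnWith (⟨‖b‖ + ‖c‖ + ε, by positivity⟩ : NNReal) G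
      (closedBall ((s₁, 0) : ℂ × ℂ) ρ) := by
    refine LipschitzOnWith.of_dist_le_mul fun x hx y hy => ?_
    rw [dist_eq_norm, dist_eq_norm]
    have h1 := hGe x hx y hy
    have h2 : ‖x.1 - y.1‖ ≤ ‖x - y‖ := norm_fst_le (x - y)
    have h3 : ‖x.2 - y.2‖ ≤ ‖x - y‖ := norm_snd_le (x - y)
    have h4 : ‖G x - G y‖ ≤ ‖b * (x.1 - y.1) + c * (x.2 - y.2)‖ +
        ‖G x - G y - (b * (x.1 - y.1) + c * (x.2 - y.2))‖ := by
      calc ‖G x - G y‖ = ‖(b * (x.1 - y.1) + c * (x.2 - y.2)) +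
        (G x - G y - (b * (x.1 - y.1) + c * (x.2 - y.2)))‖ := by congr 1; ring
        _ ≤ _ := norm_add_le _ _
    have h5 : ‖b * (x.1 - y.1) + c * (x.2 - y.2)‖ ≤ ‖b‖ * ‖x - y‖ + ‖c‖ * ‖x - y‖ := by
      refine (norm_add_le _ _).trans ?_
      rw [norm_mul, norm_mul]
      gcongr
    show ‖G x - G y‖ ≤ (‖b‖ + ‖c‖ + ε) * ‖x - y‖
    linarith
  obtain ⟨Gh, hGh, hGhe⟩ := hL.extend_finite_dimension
  obtain ⟨Kh, hGh⟩ : ∃ K : NNReal, LipschitzWith K Gh := ⟨_, hGh⟩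
  obtain ⟨δ, hδ, haw⟩ := haway ρ hρ0 hρR
  -- the flow
  have key : ∀ s₀ z₀ : ℂ, ‖s₀ - s₁‖ < ρ → 0 < ‖z₀‖ → ‖z₀‖ < min δ ρ → S s₀ z₀ →
      ∃ σ : ℝ → ℂ, σ 0 = s₀ ∧ ∀ t : ℝ, 0 ≤ t → ‖σ t - s₁‖ < ρ ∧
        HasDerivAt σ (ω * G (σ t, z₀ * Complex.exp (ω * a * t))) t := by
    intro s₀ z₀ hs₀ hz0 hzδ hS
    have hz₁ : ‖z₀‖ < δ := lt_of_lt_of_le hzδ (min_le_left _ _)
    have hz₂ : ‖z₀‖ < ρ := lt_of_lt_of_le hzδ (min_le_right _ _)
    set ξ : ℝ → ℂ := fun t => z₀ * Complex.exp (ω * a * t) with hξ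
    have hξc : Continuous ξ := by fun_prop
    have hξn : ∀ t, ‖ξ t‖ = ‖z₀‖ * Real.exp (-t) := by
      intro t
      rw [hξ]
      simp only [norm_mul, Complex.norm_exp]
      rw [Complex.re_mul_ofReal, hωa]
      congr 2
      ring
    have hξ1 : ∀ t, 0 ≤ t → ‖ξ t‖ ≤ ‖z₀‖ := by
      intro t ht
      rw [hξn]
      have : Real.exp (-t) ≤ 1 := Real.exp_le_one_iff.2 (by linarith)
      nlinarith [norm_nonneg z₀]
    have hξ0 : ∀ t, 0 < ‖ξ t‖ := by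
      intro t
      rw [hξn]
      exact mul_pos hz0 (Real.exp_pos _)
    have hξd : ∀ t, HasDerivAt ξ (ω * a * ξ t) t := by
      intro t
      have h1 : HasDerivAt (fun t : ℝ => ω * a * (t : ℂ)) (ω * a) t := by
        simpa using (Complex.ofRealCLM.hasDerivAt (x := t)).const_mul (ω * a)
      have h2 := (h1.cexp).const_mul z₀
      refine h2.congr_deriv ?_
      rw [hξ]
      ring
    obtain ⟨σ, hσ0, hσ⟩ := Pool.Agent.Helper69.EI.global_ode
      (fun t s => ω * Gh (s, ξ t)) (‖ω‖₊ * Kh) (by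
        intro t
        refine LipschitzWith.of_dist_le_mul fun x y => ?_
        rw [dist_eq_norm, ← mul_sub, norm_mul, NNReal.coe_mul, coe_nnnorm, mul_assoc]
        refine mul_le_mul_of_nonneg_left ?_ (norm_nonneg _)
        have h1 := hGh.dist_le_mul (x, ξ t) (y, ξ t)
        rw [dist_eq_norm] at h1
        refine h1.trans ?_
        refine mul_le_mul_of_nonneg_left ?_ (NNReal.coe_nonneg _)
        rw [Prod.dist_eq]
        simp) (by
        have h1 : Continuous Gh := hGh.continuous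
        exact continuous_const.mul (h1.comp (continuous_snd.prodMk
          (hξc.comp continuous_fst)))) s₀
    have hσc : Continuous σ := continuous_iff_continuousAt.2 fun t => (hσ t).continuousAt
    have hGG : ∀ t, 0 ≤ t → ‖σ t - s₁‖ ≤ ρ → Gh (σ t, ξ t) = G (σ t, ξ t) := by
      intro t ht h
      exact (hGhe (hmem _ _ h ((hξ1 t ht).trans hz₂.le))).symm
    have hin : ∀ t, 0 ≤ t → ‖σ t - s₁‖ < ρ := by
      by_contra hcon
      push Not at hcon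
      obtain ⟨t₁, ht₁, hcon⟩ := hcon
      have hgc : Continuous (fun t => ‖σ t - s₁‖) := (hσc.sub continuous_const).norm
      have hE : IsCompact (Icc 0 t₁ ∩ {t | ρ ≤ ‖σ t - s₁‖}) :=
        isCompact_Icc.inter_right (isClosed_le continuous_const hgc)
      obtain ⟨ts, hts, hmin⟩ := hE.exists_isLeast ⟨t₁, ⟨ht₁, le_rfl⟩, hcon⟩
      have hlt : ∀ t, 0 ≤ t → t < ts → ‖σ t - s₁‖ < ρ := by
        intro t h0 h1
        by_contra h2
        push Not at h2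
        have := hmin ⟨⟨h0, h1.le.trans hts.1.2⟩, h2⟩
        linarith
      have hts0 : 0 ≤ ts := hts.1.1
      have heq : ‖σ ts - s₁‖ = ρ := by
        refine le_antisymm ?_ hts.2
        by_contra h2
        push Not at h2
        have h3 := intermediate_value_Icc hts0 (hgc.continuousOn (s := Icc 0 ts))
        have h4 : ρ ∈ Icc (‖σ 0 - s₁‖) (‖σ ts - s₁‖) := ⟨by rw [hσ0]; exact hs₀.le, h2.le⟩
        obtain ⟨t', ht', ht'e⟩ := h3 h4
        simp only at ht'e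
        rcases lt_or_eq_of_le ht'.2 with h5 | h5
        · have := hlt t' ht'.1 h5
          linarith
        · rw [h5] at ht'e
          linarith
      have hle : ∀ t ∈ Icc 0 ts, ‖σ t - s₁‖ ≤ ρ := by
        intro t ht
        rcases lt_or_eq_of_le ht.2 with h5 | h5
        · exact (hlt t ht.1 h5).le
        · rw [h5, heq]
      have hSs : S (σ ts) (ξ ts) := by
        refine hflow ω σ ξ ts hts0 ?_ ?_
        · intro t ht
          refine ⟨(hle t ht).trans hρR, ((hξ1 t ht.1).trans hz₂.le).trans hρR,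
            norm_pos_iff.1 (hξ0 t), hξd t, ?_⟩
          rw [← hGG t ht.1 (hle t ht)]
          exact hσ t
        · rw [hσ0]
          simpa [hξ] using hS
      exact haw (σ ts) (ξ ts) heq (hξ0 ts) (lt_of_le_of_lt (hξ1 ts hts0) hz₁) hSs
    refine ⟨σ, hσ0, fun t ht => ⟨hin t ht, ?_⟩⟩
    have := hσ t
    simp only [hGG t ht (hin t ht).le] at this
    exact this
  refine ⟨min δ ρ, lt_min hδ hρ0, 1 + ‖κ‖, ?_, ?_⟩
  · intro s₀ z₀ hs₀ hz0 hzδ hS
    have hz₂ : ‖z₀‖ < ρ := lt_of_lt_of_le hzδ (min_le_right _ _)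
    obtain ⟨σ, hσ0, hσ⟩ := key s₀ z₀ (lt_of_lt_of_le hs₀ (min_le_right _ _)) hz0 hzδ hS
    obtain ⟨ξ, hξ⟩ : ∃ ξ : ℝ → ℂ, ξ = fun t : ℝ => z₀ * Complex.exp (ω * a * t) := ⟨_, rfl⟩
    have hξn : ∀ t, ‖ξ t‖ = ‖z₀‖ * Real.exp (-t) := by
      intro t
      rw [hξ]
      simp only [norm_mul, Complex.norm_exp]
      rw [Complex.re_mul_ofReal, hωa]
      congr 2
      ring
    have hξ1 : ∀ t, 0 ≤ t → ‖ξ t‖ ≤ ‖z₀‖ := by
      intro t ht
      rw [hξn]
      have : Real.exp (-t) ≤ 1 := Real.exp_le_one_iff.2 (by linarith)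
      nlinarith [norm_nonneg z₀]
    have hξd : ∀ t, HasDerivAt ξ (ω * a * ξ t) t := by
      intro t
      have h1 : HasDerivAt (fun t : ℝ => ω * a * (t : ℂ)) (ω * a) t := by
        simpa using (Complex.ofRealCLM.hasDerivAt (x := t)).const_mul (ω * a)
      have h2 := (h1.cexp).const_mul z₀
      rw [hξ]
      refine h2.congr_deriv ?_
      ring
    have hσ' : ∀ t, 0 ≤ t → ‖σ t - s₁‖ < ρ ∧ HasDerivAt σ (ω * G (σ t, ξ t)) t := by
      intro t ht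
      rw [hξ]
      exact hσ t ht
    have hud : ∀ t, 0 ≤ t → HasDerivAt (fun t => σ t - s₁ - κ * ξ t)
        (ω * (b * (σ t - s₁ - κ * ξ t) + (G (σ t, ξ t) - G (s₁, 0) -
          (b * (σ t - s₁) + c * (ξ t - 0))))) t := by
      intro t ht
      have h1 := (((hσ' t ht).2).sub_const s₁).sub ((hξd t).const_mul κ)
      refine h1.congr_deriv ?_
      rw [hG0, ← hκ']
      ring
    have hfin : ‖σ 0 - s₁ - κ * ξ 0‖ ^ 2 - ‖ξ 0‖ ^ 2 ≤ 0 := by
      refine nonpos_of_growth (fun t => ‖σ t - s₁ - κ * ξ t‖ ^ 2 - ‖ξ t‖ ^ 2)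
        (fun t => 2 * ((starRingEnd ℂ) (σ t - s₁ - κ * ξ t) *
        (ω * (b * (σ t - s₁ - κ * ξ t) + (G (σ t, ξ t) - G (s₁, 0) -
          (b * (σ t - s₁) + c * (ξ t - 0)))))).re - 2 * ((starRingEnd ℂ) (ξ t) *
          (ω * a * ξ t)).re) ((ρ + ‖κ‖ * ρ) ^ 2) ?_ ?_ ?_
      · intro t ht
        exact (hasDerivAt_sq _ _ t (hud t ht)).sub (hasDerivAt_sq _ _ t (hξd t))
      · intro t ht
        have h1 := growth_est ω b (σ t - s₁ - κ * ξ t) (G (σ t, ξ t) - G (s₁, 0) -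
          (b * (σ t - s₁) + c * (ξ t - 0))) hωb
        have h2 : ((starRingEnd ℂ) (ξ t) * (ω * a * ξ t)).re = - ‖ξ t‖ ^ 2 := by
          have h3 : (starRingEnd ℂ) (ξ t) * (ω * a * ξ t) =
              (ω * a) * ((starRingEnd ℂ) (ξ t) * ξ t) := by ring
          have h4 : (starRingEnd ℂ) (ξ t) * ξ t = ((‖ξ t‖ ^ 2 : ℝ) : ℂ) := by
            rw [mul_comm, Complex.mul_conj, Complex.normSq_eq_norm_sq]
          rw [h3, h4, Complex.re_mul_ofReal, hωa]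
          ring
        have h3 : ‖G (σ t, ξ t) - G (s₁, 0) - (b * (σ t - s₁) + c * (ξ t - 0))‖ ≤
            ε * (‖σ t - s₁ - κ * ξ t‖ + (1 + ‖κ‖) * ‖ξ t‖) := by
          have h4 := hGe (σ t, ξ t) (hmem _ _ (hσ' t ht).1.le ((hξ1 t ht).trans hz₂.le))
            (s₁, 0) hmem0
          refine h4.trans (mul_le_mul_of_nonneg_left ?_ hε0.le)
          rw [Prod.mk_sub_mk, Prod.norm_mk, sub_zero]
          refine max_le ?_ ?_
          · have h5 : ‖σ t - s₁‖ ≤ ‖σ t - s₁ - κ * ξ t‖ + ‖κ‖ * ‖ξ t‖ := by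
              rw [← norm_mul]
              calc ‖σ t - s₁‖ = ‖(σ t - s₁ - κ * ξ t) + κ * ξ t‖ := by congr 1; ring
                _ ≤ _ := norm_add_le _ _
            nlinarith [norm_nonneg (ξ t)]
          · nlinarith [norm_nonneg (σ t - s₁ - κ * ξ t), norm_nonneg (ξ t),
              mul_nonneg hκn (norm_nonneg (ξ t))]
        rw [h2]
        set U := ‖σ t - s₁ - κ * ξ t‖ with hU
        set X := ‖ξ t‖ with hX
        set Rr := ‖G (σ t, ξ t) - G (s₁, 0) - (b * (σ t - s₁) + c * (ξ t - 0))‖ with hRr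
        have hU0 : 0 ≤ U := norm_nonneg _
        have hX0 : 0 ≤ X := norm_nonneg _
        have h6 : ‖ω‖ * Rr ≤ 1 / 8 * U + 1 / 8 * X := by
          have h7 : ‖ω‖ * Rr ≤ ‖ω‖ * (ε * (U + (1 + ‖κ‖) * X)) :=
            mul_le_mul_of_nonneg_left h3 hωn
          have h8 : ‖ω‖ * (ε * (U + (1 + ‖κ‖) * X)) =
              (‖ω‖ * ε) * U + (‖ω‖ * ε * (1 + ‖κ‖)) * X := by ring
          have h9 := mul_le_mul_of_nonneg_right hε2 hU0
          have h10 := mul_le_mul_of_nonneg_right hε1 hX0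
          linarith
        exact est1 U X _ _ hU0 h6 h1
      · intro t ht
        have h1 : ‖σ t - s₁ - κ * ξ t‖ ≤ ρ + ‖κ‖ * ρ := by
          refine (norm_sub_le _ _).trans ?_
          rw [norm_mul]
          have := (hξ1 t ht).trans hz₂.le
          have h3 := (hσ' t ht).1.le
          gcongr
        have h2 := norm_nonneg (σ t - s₁ - κ * ξ t)
        nlinarith [sq_nonneg ‖ξ t‖]
    have hξ00 : ξ 0 = z₀ := by rw [hξ]; simp
    rw [hσ0, hξ00] at hfin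
    have h1 : ‖s₀ - s₁ - κ * z₀‖ ≤ ‖z₀‖ := by
      have h2 := norm_nonneg (s₀ - s₁ - κ * z₀)
      have h3 := norm_nonneg z₀
      nlinarith
    calc ‖s₀ - s₁‖ = ‖(s₀ - s₁ - κ * z₀) + κ * z₀‖ := by congr 1; ring
      _ ≤ ‖s₀ - s₁ - κ * z₀‖ + ‖κ * z₀‖ := norm_add_le _ _
      _ ≤ ‖z₀‖ + ‖κ‖ * ‖z₀‖ := by rw [norm_mul]; gcongr
      _ = (1 + ‖κ‖) * ‖z₀‖ := by ring
  · intro s₀ s₀' z₀ hs₀ hs₀' hz0 hzδ hS hS'
    have hz₂ : ‖z₀‖ < ρ := lt_of_lt_of_le hzδ (min_le_right _ _)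
    obtain ⟨σ, hσ0, hσ⟩ := key s₀ z₀ (lt_of_lt_of_le hs₀ (min_le_right _ _)) hz0 hzδ hS
    obtain ⟨σ', hσ0', hσ'⟩ := key s₀' z₀ (lt_of_lt_of_le hs₀' (min_le_right _ _)) hz0 hzδ hS'
    have hfin : ‖σ 0 - σ' 0‖ ^ 2 ≤ 0 := by
      refine nonpos_of_growth (fun t => ‖σ t - σ' t‖ ^ 2)
        (fun t => 2 * ((starRingEnd ℂ) (σ t - σ' t) *
        (ω * (b * (σ t - σ' t) + (G (σ t, z₀ * Complex.exp (ω * a * t)) -
          G (σ' t, z₀ * Complex.exp (ω * a * t)) - (b * (σ t - σ' t) + c *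
            (z₀ * Complex.exp (ω * a * t) - z₀ * Complex.exp (ω * a * t))))))).re)
            ((ρ + ρ) ^ 2) ?_ ?_ ?_
      · intro t ht
        refine hasDerivAt_sq _ _ t ?_
        refine (((hσ t ht).2).sub ((hσ' t ht).2)).congr_deriv ?_
        ring
      · intro t ht
        have h1 := growth_est ω b (σ t - σ' t) (G (σ t, z₀ * Complex.exp (ω * a * t)) -
          G (σ' t, z₀ * Complex.exp (ω * a * t)) - (b * (σ t - σ' t) + c *
            (z₀ * Complex.exp (ω * a * t) - z₀ * Complex.exp (ω * a * t)))) hωb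
        have hzt : ‖z₀ * Complex.exp (ω * a * t)‖ ≤ ρ := by
          rw [norm_mul, Complex.norm_exp, Complex.re_mul_ofReal, hωa]
          have : Real.exp (-1 * t) ≤ 1 := Real.exp_le_one_iff.2 (by linarith)
          nlinarith [norm_nonneg z₀]
        have h3 := hGe (σ t, z₀ * Complex.exp (ω * a * t))
          (hmem _ _ (hσ t ht).1.le hzt) (σ' t, z₀ * Complex.exp (ω * a * t))
          (hmem _ _ (hσ' t ht).1.le hzt)
        rw [Prod.mk_sub_mk, Prod.norm_mk, sub_self, norm_zero,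
          max_eq_left (norm_nonneg _)] at h3
        simp only [sub_self] at h3
        simp only [sub_self] at h1 ⊢
        set V := ‖σ t - σ' t‖ with hV
        set Rr := ‖G (σ t, z₀ * Complex.exp (ω * a * t)) -
          G (σ' t, z₀ * Complex.exp (ω * a * t)) - (b * (σ t - σ' t) + c * 0)‖ with hRr
        have hV0 : 0 ≤ V := norm_nonneg _
        have h6 : ‖ω‖ * Rr ≤ 1 / 8 * V := by
          have h7 : ‖ω‖ * Rr ≤ ‖ω‖ * (ε * V) := mul_le_mul_of_nonneg_left h3 hωn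
          have h9 := mul_le_mul_of_nonneg_right hε2 hV0
          linarith
        exact est2 V _ _ hV0 h6 h1
      · intro t ht
        have h1 : ‖σ t - σ' t‖ ≤ ρ + ρ := by
          calc ‖σ t - σ' t‖ = ‖(σ t - s₁) - (σ' t - s₁)‖ := by congr 1; ring
            _ ≤ ‖σ t - s₁‖ + ‖σ' t - s₁‖ := norm_sub_le _ _
            _ ≤ ρ + ρ := add_le_add (hσ t ht).1.le (hσ' t ht).1.le
        exact pow_le_pow_left₀ (norm_nonneg _) h1 2
    rw [hσ0, hσ0'] at hfin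
    have h1 : ‖s₀ - s₀'‖ = 0 := by
      have := norm_nonneg (s₀ - s₀')
      nlinarith
    exact sub_eq_zero.1 (norm_eq_zero.1 h1)

/-! ### application to the foliation -/

theorem contDiff_pol (p : Polynomial ℂ) : ContDiff ℂ 1 (fun s : ℂ => p.eval s) := by
  simpa using Polynomial.contDiff_aeval (𝕜 := ℂ) p 1

theorem curve_deriv (F : Fld) (s s' z z' A B κ : ℂ) (σ ξ : ℝ → ℂ) (t : ℝ) (hσ0 : σ t = s)
    (hξ0 : ξ t = z) (hz : z ≠ 0) (hA : A ≠ 0) (hσ : HasDerivAt σ s' t) (hξ : HasDerivAt ξ z' t)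
    (h1 : z ^ F.d * (F.W (aff s z)).1 = - A) (h2 : z ^ F.d * (F.W (aff s z)).2 = B - s * A)
    (hz' : z' = κ * z) (hs' : s' = κ * B / A) :
    HasDerivAt (fun t => aff (σ t) (ξ t)) ((κ * z ^ F.d / (z * A)) • F.W (aff (σ t) (ξ t))) t := by
  have h6 : HasDerivAt (fun t => aff (σ t) (ξ t))
      ((0 * ξ t - 1 * z') / (ξ t) ^ 2, (s' * ξ t - σ t * z') / (ξ t) ^ 2) t :=
    ((hasDerivAt_const t (1 : ℂ)).fun_div hξ (by rw [hξ0]; exact hz)).prodMk
      (hσ.fun_div hξ (by rw [hξ0]; exact hz))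
  refine h6.congr_deriv ?_
  rw [hσ0, hξ0, hz', hs']
  have hzd : z ^ F.d ≠ 0 := pow_ne_zero _ hz
  have hw1 : (F.W (aff s z)).1 = - A / z ^ F.d := by
    rw [← h1, mul_div_cancel_left₀ _ hzd]
  have hw2 : (F.W (aff s z)).2 = (B - s * A) / z ^ F.d := by
    rw [← h2, mul_div_cancel_left₀ _ hzd]
  refine Prod.ext ?_ ?_
  · rw [Prod.smul_fst, hw1, smul_eq_mul]
    simp only
    generalize z ^ F.d = w at hzd
    field_simp
    ring
  · rw [Prod.smul_snd, hw2, smul_eq_mul]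
    simp only
    generalize z ^ F.d = w at hzd
    field_simp

theorem contDiff_A (I : Inf) : ContDiff ℂ 1 (fun q : ℂ × ℂ => I.A q.1 q.2) := by
  unfold Inf.A
  refine ContDiff.sum fun m _ => ?_
  exact (contDiff_snd.pow m).mul ((contDiff_pol (I.a m)).comp contDiff_fst)

theorem contA (I : Inf) (σ ξ : ℝ → ℂ) (s : Set ℝ) (hσ : ContinuousOn σ s)
    (hξ : ContinuousOn ξ s) : ContinuousOn (fun t => I.A (σ t) (ξ t)) s :=
  Continuous.comp_continuousOn (g := fun q : ℂ × ℂ => I.A q.1 q.2) (f := fun t => (σ t, ξ t))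
    (contDiff_A I).continuous (hσ.prodMk hξ)

theorem contDiff_B (I : Inf) : ContDiff ℂ 1 (fun q : ℂ × ℂ => I.B q.1 q.2) := by
  unfold Inf.B
  refine ContDiff.sum fun m _ => ?_
  exact (contDiff_snd.pow m).mul ((contDiff_pol (I.b m)).comp contDiff_fst)

theorem A_zero (I : Inf) (s : ℂ) : I.A s 0 = (I.a 0).eval s := by
  unfold Inf.A
  rw [Finset.sum_eq_single 0]
  · simp
  · intro m _ hm
    simp [hm]
  · intro h
    simp at h

theorem B_zero (I : Inf) (s : ℂ) : I.B s 0 = (I.b 0).eval s := by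
  unfold Inf.B
  rw [Finset.sum_eq_single 0]
  · simp
  · intro m _ hm
    simp [hm]
  · intro h
    simp at h

/-- F25 -/
theorem sad (hcurve : S_CURVE) (hchart : S_CHART) : S_SAD := by
  intro F hF p hp haw s₁ hs₁
  obtain ⟨hb, him⟩ := hF.hypInf s₁ hs₁
  obtain ⟨a, ha⟩ : ∃ a, a = (F.inf.a 0).eval s₁ := ⟨_, rfl⟩
  obtain ⟨b, hbdef⟩ : ∃ b, b = (Polynomial.derivative (F.inf.b 0)).eval s₁ := ⟨_, rfl⟩
  rw [← ha, ← hbdef] at him
  rw [← hbdef] at hb
  have ha0 : a ≠ 0 := by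
    rintro rfl
    simp at him
  have hA0 : F.inf.A s₁ 0 = a := by rw [A_zero, ha]
  have hB0 : F.inf.B s₁ 0 = 0 := by rw [B_zero, hs₁]
  set G : ℂ × ℂ → ℂ := fun q => a * F.inf.B q.1 q.2 / F.inf.A q.1 q.2 with hG
  have hGc : ContDiffAt ℂ 1 G (s₁, 0) := by
    refine ContDiffAt.div ?_ (contDiff_A F.inf).contDiffAt ?_
    · exact contDiffAt_const.mul (contDiff_B F.inf).contDiffAt
    · simp only [hA0]
      exact ha0
  have hGs := hGc.hasStrictFDerivAt one_ne_zero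
  set L := fderiv ℂ G (s₁, 0) with hL
  have hLb : L (1, 0) = b := by
    have h1 : HasDerivAt (fun s : ℂ => ((s, 0) : ℂ × ℂ)) (1, 0) s₁ :=
      (hasDerivAt_id s₁).prodMk (hasDerivAt_const s₁ (0 : ℂ))
    have h2 : HasDerivAt (fun s : ℂ => G (s, 0)) (L (1, 0)) s₁ :=
      HasFDerivAt.comp_hasDerivAt (f := fun s : ℂ => ((s, 0) : ℂ × ℂ)) (l := G) s₁
        (hGs.hasFDerivAt) h1
    have h3 : (fun s : ℂ => G (s, 0)) = fun s => a * (F.inf.b 0).eval s / (F.inf.a 0).eval s := by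
      funext s
      simp only [hG, A_zero, B_zero]
    rw [h3] at h2
    have h4 : HasDerivAt (fun s : ℂ => a * (F.inf.b 0).eval s / (F.inf.a 0).eval s)
        ((a * b * a - a * 0 * (Polynomial.derivative (F.inf.a 0)).eval s₁) / a ^ 2) s₁ := by
      have h5 := (((F.inf.b 0).hasDerivAt s₁).const_mul a).fun_div ((F.inf.a 0).hasDerivAt s₁)
        (by rw [← ha]; exact ha0)
      rw [← ha, ← hbdef, hs₁] at h5
      exact h5
    rw [h2.unique h4]
    field_simp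
    ring
  have hLeq : L = b • ContinuousLinearMap.fst ℂ ℂ ℂ +
      (L (0, 1)) • ContinuousLinearMap.snd ℂ ℂ ℂ := by
    ext
    · simp [hLb]
    · simp
  rw [hLeq] at hGs
  -- radius
  have hAne : ∀ᶠ q : ℂ × ℂ in 𝓝 ((s₁, 0) : ℂ × ℂ), F.inf.A q.1 q.2 ≠ 0 := by
    refine (contDiff_A F.inf).continuous.continuousAt.eventually_ne ?_
    simp only [hA0]
    exact ha0
  obtain ⟨R₁, hR₁, hAne⟩ := Metric.eventually_nhds_iff_ball.1 hAne
  have hbne : ∀ᶠ s in 𝓝[≠] s₁, (F.inf.b 0).eval s ≠ 0 := by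
    refine ((F.inf.b 0).hasDerivAt s₁).eventually_ne ?_
    rw [← hbdef]
    exact hb
  rw [eventually_nhdsWithin_iff] at hbne
  obtain ⟨R₂, hR₂, hbne⟩ := Metric.eventually_nhds_iff_ball.1 hbne
  have hdpos : 2 ≤ F.d := hF.hd
  refine abs_sad G s₁ a b (L (0, 1)) hGs (by simp [hG, hB0]) hb him
    (fun s z => F.Lf p (aff s z)) (min (R₁ / 2) (R₂ / 2)) (by positivity) ?_ ?_
  · intro ω σ ξ T hT h hS
    have hA : ∀ t ∈ Icc 0 T, F.inf.A (σ t) (ξ t) ≠ 0 := by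
      intro t ht
      obtain ⟨h1, h2, -⟩ := h t ht
      refine hAne (σ t, ξ t) ?_
      have h3 : min (R₁ / 2) (R₂ / 2) < R₁ := lt_of_le_of_lt (min_le_left _ _) (by linarith)
      rw [mem_ball, dist_eq_norm, Prod.mk_sub_mk, Prod.norm_mk, sub_zero]
      exact max_lt (lt_of_le_of_lt h1 h3) (lt_of_le_of_lt h2 h3)
    refine Relation.ReflTransGen.trans hS ?_
    refine hcurve F (fun t => aff (σ t) (ξ t))
      (fun t => ω * a * (ξ t) ^ F.d / (ξ t * F.inf.A (σ t) (ξ t))) T hT ?_ ?_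
    · have hσc : ContinuousOn σ (Icc 0 T) := fun t ht =>
        ((h t ht).2.2.2.2).continuousAt.continuousWithinAt
      have hξc : ContinuousOn ξ (Icc 0 T) := fun t ht =>
        ((h t ht).2.2.2.1).continuousAt.continuousWithinAt
      have hAc : ContinuousOn (fun t => F.inf.A (σ t) (ξ t)) (Icc 0 T) :=
        contA F.inf σ ξ _ hσc hξc
      have h1 : ContinuousOn (fun t => ω * a * (ξ t) ^ F.d) (Icc 0 T) :=
        continuousOn_const.mul (hξc.pow _)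
      have h2 : ContinuousOn (fun t => ξ t * F.inf.A (σ t) (ξ t)) (Icc 0 T) := hξc.mul hAc
      exact ContinuousOn.div h1 h2 (fun t ht => mul_ne_zero (h t ht).2.2.1 (hA t ht))
    · intro t ht
      obtain ⟨h1, h2, h3, h4, h5⟩ := h t ht
      obtain ⟨hc1, hc2⟩ := hchart F hF.degP hF.degQ (σ t) (ξ t) h3
      refine HasDerivAt.hasDerivWithinAt ?_
      refine curve_deriv F (σ t) _ (ξ t) _ (F.inf.A (σ t) (ξ t)) (F.inf.B (σ t) (ξ t)) (ω * a)
        σ ξ t rfl rfl h3 (hA t ht) h5 h4 hc1 hc2 rfl ?_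
      simp only [hG]
      ring
  · intro ρ hρ hρR
    obtain ⟨δ, hδ, h⟩ := haw (sphere s₁ ρ) (isCompact_sphere s₁ ρ) (by
      intro s hs
      rw [mem_sphere, dist_eq_norm] at hs
      refine hbne s ?_ ?_
      · rw [mem_ball, dist_eq_norm, hs]
        exact lt_of_le_of_lt (hρR.trans (min_le_right _ _)) (by linarith)
      · intro h
        rw [mem_singleton_iff] at h
        rw [h, sub_self, norm_zero] at hs
        exact hρ.ne hs)
    refine ⟨δ, hδ, fun s z hs hz hzδ => h s ?_ z hz hzδ⟩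
    rw [mem_sphere, dist_eq_norm]
    exact hs

end Pool.GL.H69
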